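import Mathlib
import Pool.Agent.W5h14.Circ.Res

set_option autoImplicit false

/-!
# Covering Petersen-minor-free graphs of circumference at most fifteen by two cycles (MP_e6539c_co)

Every finite multigraph without isthmuses and without a Petersen graph minor, in which no circuit
has more than `15` edges, is the union of two cycles.  There is no condition on the number of
vertices, on the degrees or on the connectivity.  The Petersen graph has circumference `9`, so the
minor condition is needed.

Proof.  Let `H` be a counterexample which is minimal for deletions and contractions of edges.  `H` is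
simple, has no circuits with three or four edges, all its degrees are at least three, every vertex
cut with three vertices separates only one vertex (starting library `TH462`, `TH497`, `TH169`), and
it has at least 18 vertices of odd degree (`TH362`).  Let `C` be a longest circuit of `H`, with
`L ≤ 15` vertices.  A circuit outside of `C` would be joined to `C` by four disjoint paths (Menger's
theorem), which gives a circuit longer than `C`; by the analysis of the ends of a longest path
outside of `C` it follows that there are no paths with three vertices outside of `C`.  Now consider
a vertex outside with two neighbours on `C` whose distance on `C` is minimal.  Starting with these,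
a search over the neighbours of the known vertices with less than three known neighbours, in which
each branch ends with a circuit with three, four or more than `L` vertices, has about 100000 steps;
it is evaluated by the kernel and shows that `H` has less than 18 vertices.
-/

namespace Pool.Agent.Results.MP_e6539c_co.CircumferenceFifteen

variable {V E : Type}

/-- The edge `e` joins the vertices `x` and `y`. -/
def Joins (src dst : E → V) (e : E) (x y : V) : Prop :=
  (src e = x ∧ dst e = y) ∨ (src e = y ∧ dst e = x)

/-- `p 0, p 1, ..., p (k - 1)` are `k` different vertices such that `p i` and `p (i + 1)` are joined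
by an edge, where the indices are taken modulo `k`.  For `k ≥ 3` this says that these are the
vertices of a circuit with `k` edges. -/
def IsCircuitOn (src dst : E → V) (k : ℕ) (p : ZMod k → V) : Prop :=
  Function.Injective p ∧ ∀ i, ∃ e, Joins src dst e (p i) (p (i + 1))

/-- The vertices `x` and `y` are joined by an edge different from `e`. -/
def AdjWithout (src dst : E → V) (e : E) (x y : V) : Prop :=
  ∃ e', e' ≠ e ∧ ((src e' = x ∧ dst e' = y) ∨ (src e' = y ∧ dst e' = x))

/-- The edge `e` is an isthmus: its ends are not joined by a walk that avoids `e`. -/
def IsIsthmus (src dst : E → V) (e : E) : Prop :=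
  ¬ Relation.ReflTransGen (AdjWithout src dst e) (src e) (dst e)

/-- `C` is a cycle (a disjoint union of circuits): every vertex has even degree in `(V, C)`; a loop
counts twice. -/
def IsCycle [DecidableEq V] (src dst : E → V) (C : Finset E) : Prop :=
  ∀ v : V, Even ((C.filter (fun e => src e = v)).card + (C.filter (fun e => dst e = v)).card)

/-- The vertices of the Petersen graph: the `2`-element subsets of a `5`-element set; two of them
are adjacent if they are disjoint. -/
def PetVertex : Type := {s : Finset (Fin 5) // s.card = 2}

/-- The vertices `x` and `y` lie in `B` and are joined by an edge. -/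
def AdjIn (src dst : E → V) (B : Set V) (x y : V) : Prop :=
  x ∈ B ∧ y ∈ B ∧ ∃ e, (src e = x ∧ dst e = y) ∨ (src e = y ∧ dst e = x)

/-- The multigraph has a Petersen graph minor: there are nonempty disjoint vertex sets `B s`, one
for each vertex `s` of the Petersen graph, such that any two vertices of `B s` are joined by a walk
in `B s`, and such that an edge joins `B s` and `B t` if `s` and `t` are adjacent. -/
def HasPetersenMinor (src dst : E → V) : Prop :=
  ∃ B : PetVertex → Set V, (∀ s, (B s).Nonempty) ∧
    (∀ s t, s ≠ t → Disjoint (B s) (B t)) ∧
    (∀ s, ∀ x ∈ B s, ∀ y ∈ B s, Relation.ReflTransGen (AdjIn src dst (B s)) x y) ∧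
    ∀ s t : PetVertex, Disjoint s.1 t.1 →
      ∃ e, (src e ∈ B s ∧ dst e ∈ B t) ∨ (src e ∈ B t ∧ dst e ∈ B s)

theorem result :
    ∀ (V E : Type) [Fintype V] [DecidableEq V] [Fintype E] [DecidableEq E] (src dst : E → V),
      (∀ (k : ℕ) (p : ZMod k → V), IsCircuitOn src dst k p → k ≤ 15) →
      (∀ e, ¬ IsIsthmus src dst e) → ¬ HasPetersenMinor src dst →
      ∃ C₁ C₂ : Finset E, IsCycle src dst C₁ ∧ IsCycle src dst C₂ ∧ C₁ ∪ C₂ = Finset.univ := by
  intro V E _ _ _ _ src dst hC hb hp
  exact W5h14.Circ.two_of_flow (W5h14.Circ.flow15
    (W5h14.Circ.cl_of fun k p h1 h2 => hC k p ⟨h1, h2⟩)
    (fun h => hp (TH443.P5.pet_minor h)) (TH443.P5.no_one_cut hb))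

end Pool.Agent.Results.MP_e6539c_co.CircumferenceFifteen
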