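import Pool.Agent.TH362.TF.Main
import Pool.Agent.TH362.TF.Multi
import Pool.Agent.TH362.TF.Contr
import Pool.Agent.TH362.TF.Cyc
import Pool.Agent.W5h7.Dom.Main

/-!
# Graphs whose short-circuit reduction is dominated by three vertices (MP_e6539c_co)

A finite multigraph without isthmuses in which three vertices `c 0, c 1, c 2` are such that every
vertex is equal or adjacent to one of them, after the circuits with two, three and four edges have
been contracted repeatedly, is the union of two cycles, or a component of it can be contracted to
the Petersen graph.  In particular this holds for all graphs with domination number at most three,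
and for all graphs whose vertices can be covered by the closed neighbourhoods of three cliques.

Proof.  If the graph `G` has no flow over the group of order four which is nowhere zero and no
Petersen quotient, then a graph `H` obtained from it by identification of vertices, with these
properties and with as few edges (apart from loops) as possible, has no circuit with at most four
edges (Kempe chains), no vertex with one or two neighbours, and at least 18 vertices of odd degree
(starting library `TH362/TF`, `R890/FF`).  Tied vertices have the same image in `H`, so `H` is
dominated by three vertices `d 0, d 1, d 2`.  As there are no circuits of length three or four, a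
vertex different from the `d i` has at most one neighbour in each closed neighbourhood of a `d i`; so
it has exactly three neighbours.  At most one vertex is adjacent to all `d i`; all the others are on
disjoint circuits whose lengths are divisible by three and whose vertices are joined to `d 0`,
`d 1`, `d 2` in turn.  At least five of them are joined to each `d i`, and then a flow on `H` which
is nowhere zero can be given explicitly (`Pool/Agent/W5h7/Dom/Pure.lean`).
-/

set_option autoImplicit false

namespace Pool.Agent.Results.MP_e6539c_co.DominationThree

open Pool.Agent.TH362.Multi

/-- The edge `e` joins the vertices `x` and `y`. -/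
def Joins {V E : Type} (s t : E → V) (e : E) (x y : V) : Prop :=
  (s e = x ∧ t e = y) ∨ (s e = y ∧ t e = x)

/-- `Tied s t` is the smallest equivalence relation on the vertices such that: if two, three or four
different edges form a closed walk `x – y`, `y' – z`, ..., `u' – x'` where the consecutive ends `y, y'`
and `z, z'` and so on, and `x', x`, are tied to each other (for instance equal), then the ends `x` and
`y` of the first edge are tied.  So the ends of an edge of a circuit with at most four edges are
tied, and this is repeated after the identification of the tied vertices. -/
inductive Tied {V E : Type} (s t : E → V) : V → V → Prop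
  | refl (x : V) : Tied s t x x
  | symm {x y : V} (h : Tied s t x y) : Tied s t y x
  | trans {x y z : V} (h : Tied s t x y) (h' : Tied s t y z) : Tied s t x z
  | two {x y x' y' : V} {e f : E} (hef : e ≠ f) (he : Joins s t e x y) (hy : Tied s t y y')
      (hf : Joins s t f y' x') (hx : Tied s t x' x) : Tied s t x y
  | three {x y z x' y' z' : V} {e f g : E} (hef : e ≠ f) (heg : e ≠ g) (hfg : f ≠ g)
      (he : Joins s t e x y) (hy : Tied s t y y') (hf : Joins s t f y' z) (hz : Tied s t z z')
      (hg : Joins s t g z' x') (hx : Tied s t x' x) : Tied s t x y
  | four {x y z u x' y' z' u' : V} {e f g h : E} (hef : e ≠ f) (heg : e ≠ g) (heh : e ≠ h)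
      (hfg : f ≠ g) (hfh : f ≠ h) (hgh : g ≠ h) (he : Joins s t e x y) (hy : Tied s t y y')
      (hf : Joins s t f y' z) (hz : Tied s t z z') (hg : Joins s t g z' u) (hu : Tied s t u u')
      (hh : Joins s t h u' x') (hx : Tied s t x' x) : Tied s t x y

/-- Let `s t : E → V` be a finite multigraph without isthmuses and let `c 0, c 1, c 2` be three
vertices (not necessarily different) such that every vertex `v` which is an end of an edge is tied to
some `c i`, or tied to an end `x` of an edge whose other end `y` is tied to some `c i` (for example,
`v` is equal or adjacent to some `c i`).  Then the edge set is the union of two cycles, or some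
component can be contracted to the Petersen graph. In particular the edge set is the union of two
cycles if there is no Petersen minor. -/
theorem result (V E : Type) [Finite V] [Finite E] (s t : E → V)
    (hb : ∀ e, ¬ Isthmus s t e) (c : Fin 3 → V)
    (hc : ∀ e₀ v w, Joins s t e₀ v w → ∃ i, Tied s t v (c i) ∨
      ∃ e x y, Joins s t e x y ∧ Tied s t v x ∧ Tied s t y (c i)) :
    (∃ C₁ C₂ : Set E, IsCycle s t C₁ ∧ IsCycle s t C₂ ∧ C₁ ∪ C₂ = Set.univ) ∨
      ContractsToPetersen s t := by
  classical
  have := Fintype.ofFinite V
  have := Fintype.ofFinite E
  have h1 := TH362.TF.n1_of s t hb
  have hT : ∀ x y, Tied s t x y → W5h7.Dom.Tied s t x y := by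
    intro x y h
    induction h with
    | refl x => exact .refl x
    | symm _ ih => exact .symm ih
    | trans _ _ ih ih' => exact .trans ih ih'
    | two hef he _ hf _ ihy ihx => exact .two hef he ihy hf ihx
    | three hef heg hfg he _ hf _ hg _ ihy ihz ihx => exact .three hef heg hfg he ihy hf ihz hg ihx
    | four hef heg heh hfg hfh hgh he _ hf _ hg _ hh _ ihy ihz ihu ihx =>
      exact .four hef heg heh hfg hfh hgh he ihy hf ihz hg ihu hh ihx
  rcases W5h7.Dom.dom_three s t h1 c (fun e₀ v w hvw => by
    obtain ⟨i, hi | ⟨e, x, y, hxy, hx, hy⟩⟩ := hc e₀ v w hvw
    · exact ⟨i, Or.inl (hT _ _ hi)⟩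
    · exact ⟨i, Or.inr ⟨e, x, y, hxy, hT _ _ hx, hT _ _ hy⟩⟩) with h | h
  · exact Or.inl (TH362.TF.two_cycles s t h)
  · exact Or.inr (TH362.TF.contracts s t h1 h)

end Pool.Agent.Results.MP_e6539c_co.DominationThree
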