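import Pool.Agent.TH362.TF.Multi
import Pool.Agent.TH362.TF.Cyc
import Pool.Agent.W5h9.LF.Main11

/-!
# Graphs without Petersen minor in which every induced path with eleven vertices is dominating
# (MP_e6539c_co)

Let `G` be a finite multigraph without isthmuses and without Petersen graph minor which has no
induced subgraph that consists of a path with eleven vertices and a further isolated vertex.  Then
the edge set of `G` is the union of two cycles.  In particular this holds for all graphs without
induced paths with eleven vertices.

Proof.  Let `H` be obtained from `G` by contraction of disjoint connected vertex sets, without
nowhere-zero flow over the group of order four and without Petersen quotient, and with as few edges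
(apart from loops) as possible.

(1) `H` has no circuits with two, three or four edges, no vertices with exactly one or two
neighbours, only one component with edges apart from loops, and at least 18 vertices of odd degree
(starting library `R140/PK`, `TH362`).  It has no cut vertex: flows for the contractions of the two
sides can be combined.

(2) `H` has no Petersen minor and no induced subgraph which consists of a path with eleven vertices
and an isolated vertex: such subgraphs can be lifted to `G`.

(3) There is no such `H`.  This is shown by a search (`W5h9/LF`): starting with an edge, induced
subgraphs are shown to be impossible in `H`.  An induced subgraph is impossible if for a vertex with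
at most two neighbours all extensions by a new neighbour of it contain the linear forest, a Petersen
minor, or an induced subgraph which is known to be impossible.  The neighbourhoods of the new vertex
are enumerated by a decision tree.  Subgraphs with all degrees at least three (they turn out to have
at most 17 vertices) are extended by a vertex outside, which exists as there is no cut vertex and
as there are at least 18 odd vertices.  The certificate has 9616 induced subgraphs; it is checked by
the kernel.
-/

set_option autoImplicit false

namespace Pool.Agent.Results.MP_e6539c_co.InducedPathEleven

open Pool.Agent.TH362.Multi

/-- The multigraph has a Petersen graph minor: there are ten disjoint connected vertex sets, indexed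
by the pairs of elements of `Fin 5` (the vertices of the Petersen graph, adjacent if they are
disjoint), such that the sets of adjacent vertices are joined by an edge. -/
def HasPetersenMinor {V E : Type} (s t : E → V) : Prop :=
  ∃ B : {p : Finset (Fin 5) // p.card = 2} → Set V,
    (∀ i, ConnectedSet s t (B i)) ∧
    (∀ i j, i ≠ j → Disjoint (B i) (B j)) ∧
    ∀ i j, Disjoint i.1 j.1 → ∃ e, (s e ∈ B i ∧ t e ∈ B j) ∨ (s e ∈ B j ∧ t e ∈ B i)

/-- Let `s t : E → V` be a finite multigraph without isthmuses and without Petersen graph minor.
Suppose that it has no induced subgraph which consists of a path with eleven vertices and an
isolated vertex: there are no twelve different vertices `p 0, ..., p 11` such that, for `i < j`, the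
vertices `p i` and `p j` are joined by an edge if and only if `j = i + 1` and `j ≤ 10`. Then the edge
set is the union of two cycles. -/
theorem result (V E : Type) [Finite V] [Finite E] (s t : E → V)
    (hb : ∀ e, ¬ Isthmus s t e) (hm : ¬ HasPetersenMinor s t)
    (hp : ¬ ∃ p : Fin 12 → V, Function.Injective p ∧ ∀ i j : Fin 12, i < j →
      ((∃ e, (s e = p i ∧ t e = p j) ∨ (s e = p j ∧ t e = p i)) ↔
        (i.val + 1 = j.val ∧ j.val ≤ 10))) :
    ∃ C₁ C₂ : Set E, IsCycle s t C₁ ∧ IsCycle s t C₂ ∧ C₁ ∪ C₂ = Set.univ := by
  classical
  have := Fintype.ofFinite V
  have := Fintype.ofFinite E
  refine TH362.TF.two_cycles s t (W5h9.LF.flow11 s t (TH362.TF.n1_of s t hb) hm ?_)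
  rintro ⟨p, hp1, hp2⟩
  refine hp ⟨p, hp1, fun i j hij => (hp2 i j hij).trans ?_⟩
  rw [Nat.lt_succ_iff]

end Pool.Agent.Results.MP_e6539c_co.InducedPathEleven
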