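import Pool.Agent.W5h8.M9D

/-!
# Graphs without nine disjoint edges outside of the short circuits (MP_e6539c_co)

Let `G` be a finite multigraph without isthmuses which does not contain nine pairwise disjoint edges
none of which is on a circuit with at most four edges (for instance a graph with matching number at
most eight, or a graph in which the edges that are on no circuit with at most four edges can be met
by eight vertices).  Then the edge set of `G` is the union of two cycles, or a component of `G` can
be contracted to the Petersen graph.  In particular the edge set is the union of two cycles if there
is no Petersen minor.  The order, the degrees, the connectivity, the number of vertices of odd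
degree and the width parameters of `G` are arbitrary.

Proof.  Let `H` be obtained from `G` by identification of vertices, without nowhere-zero flow over
the group of order four and without Petersen quotient, with as few edges (apart from loops) as
possible.  `H` has no circuit with two, three or four edges and no vertex with exactly one or two
neighbours, and at least 18 vertices of odd degree (starting library `TH362/TF`, `R890/FF`).  So the
edges of `G` on circuits with at most four edges are loops of `H`, and it is enough to find nine
disjoint edges in `H`.  If there are none, Tutte's theorem gives a set `S` of `s` vertices such that
`H - S` has at least `s + n - 16` components of odd order, where `n ≥ 18` is the number of the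
vertices which are not isolated.  Two vertices of `S` have at most one common neighbour.  A component
of `H - S` with one vertex uses three pairs of vertices of `S` for this, and one with three vertices
uses two pairs.  This gives `s ^ 2 - 10 s + 12 ≥ 0` and `s ≤ 8`, so `s ≤ 1`.  But in this case each
component has at least nine vertices, because the vertices at distance at most two from a vertex of
`H` are at least ten.
-/

set_option autoImplicit false

namespace Pool.Agent.Results.MP_e6539c_co.NineDisjointEdges

open Pool.Agent.TH362.Multi

/-- Let `s t : E → V` be a finite multigraph without isthmuses in which there are no nine pairwise
disjoint edges such that each of them is on no circuit with at most four edges (equivalently, in no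
cycle with at most four edges; so they are not loops).  Then the edge set is the union of two
cycles, or some component can be contracted to the Petersen graph.  In particular the edge set is
the union of two cycles if there is no Petersen minor. -/
theorem result (V E : Type) [Finite V] [Finite E] (s t : E → V)
    (hb : ∀ e, ¬ Isthmus s t e)
    (hm : ¬ ∃ f : Fin 9 → E,
      (∀ i, ∀ C : Set E, IsCycle s t C → f i ∈ C → 5 ≤ C.ncard) ∧
      ∀ i j, i ≠ j → Disjoint ({s (f i), t (f i)} : Set V) {s (f j), t (f j)}) :
    (∃ C₁ C₂ : Set E, IsCycle s t C₁ ∧ IsCycle s t C₂ ∧ C₁ ∪ C₂ = Set.univ) ∨
      ContractsToPetersen s t := by
  classical
  have := Fintype.ofFinite V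
  have := Fintype.ofFinite E
  have h1 := TH362.TF.n1_of s t hb
  rcases W5h8.M9.match_nine_short s t Finset.univ h1 (by
    rintro ⟨f, hf, hd⟩
    refine hm ⟨f, fun i C hC hi => ?_, hd⟩
    have h2 : (C.toFinset : Set E) = C := Set.coe_toFinset C
    rw [← h2, Set.ncard_coe_finset]
    refine (hf i).2 C.toFinset (Finset.subset_univ _) (fun v => ?_) (by simpa using hi)
    have h3 := hC v
    rw [← h2, TH362.TF.Cyc.degree_eq] at h3
    exact h3) with h | h
  · exact Or.inl (TH362.TF.two_cycles s t h)
  · exact Or.inr (TH362.TF.contracts s t h1 h)

end Pool.Agent.Results.MP_e6539c_co.NineDisjointEdges
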